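import Pool.Agent.Y160.FT.Stmts

/-!
# Descent along a cyclic Kummer extension
-/

set_option autoImplicit false
set_option linter.all false

open Polynomial IsDedekindDomain WithZero

namespace Pool.Agent.Y317.FT

open Pool.Agent.Y160.SE (IsPw)
open Pool.Agent.Y160.FT (Kx StTS)

/-! ### The powers of `σ - 1` -/

section iter

theorem iter_gen {M : Type} [AddCommGroup M] (τ : AddMonoid.End M) {ℓ : ℕ} (hℓ : ℓ.Prime) (n : ℕ)
    (x : M) : ∃ y : M, (fun x => τ x - x)^[ℓ ^ n] x = τ^[ℓ ^ n] x - x + ℓ • y := by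
  have h0 : ∀ m x, (fun x => τ x - x)^[m] x = ((τ - 1) ^ m) x := by
    intro m x
    induction m with
    | zero => rfl
    | succ m ih =>
      rw [Function.iterate_succ_apply', ih, pow_succ']
      rfl
  have h0' : ∀ m x, τ^[m] x = (τ ^ m) x := by
    intro m x
    induction m with
    | zero => rfl
    | succ m ih =>
      rw [Function.iterate_succ_apply', ih, pow_succ']
      rfl
  have h1 : Commute τ (-1) := Commute.neg_right (Commute.one_right τ)
  obtain ⟨c, hc⟩ := h1.exists_add_pow_prime_pow_eq hℓ n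
  have h2 : ∃ c' : AddMonoid.End M, (τ - 1) ^ (ℓ ^ n) =
      τ ^ (ℓ ^ n) - 1 + (ℓ : AddMonoid.End M) * c' := by
    rcases hℓ.eq_two_or_odd' with h | h
    · refine ⟨τ * (-1) * c + (if n = 0 then 0 else 1), ?_⟩
      rw [sub_eq_add_neg, hc]
      subst h
      split_ifs with hn
      · subst hn
        simp only [pow_zero, pow_one, add_zero]
        push_cast
        noncomm_ring
      · have h3 : Even (2 ^ n) := (Nat.even_pow.2 ⟨even_two, hn⟩)
        rw [h3.neg_one_pow]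
        push_cast
        noncomm_ring
    · refine ⟨τ * (-1) * c, ?_⟩
      rw [sub_eq_add_neg, hc, (h.pow : Odd (ℓ ^ n)).neg_one_pow]
      noncomm_ring
  obtain ⟨c', hc'⟩ := h2
  refine ⟨c' x, ?_⟩
  rw [h0, h0', hc']
  show (τ ^ (ℓ ^ n)) x - x + (ℓ : AddMonoid.End M) (c' x) = _
  rw [AddMonoid.End.natCast_apply]

variable {L : Type} [Field L] (σ : L ≃+* L)

/-- `z ↦ σ z / z` -/
def DD (z : L) : L := σ z / z

theorem DD_ne {z : L} (hz : z ≠ 0) : DD σ z ≠ 0 :=
  div_ne_zero ((map_ne_zero_iff σ σ.injective).2 hz) hz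

/-- the action of `σ` on the units -/
def tau : Additive Lˣ →+ Additive Lˣ :=
  MonoidHom.toAdditive (Units.map (σ : L →* L))

/-- the value of a unit -/
def uv (x : Additive Lˣ) : L := ((Additive.toMul x : Lˣ) : L)

theorem uv_add (x y : Additive Lˣ) : uv (x + y) = uv x * uv y := rfl

theorem uv_neg (x : Additive Lˣ) : uv (-x) = (uv x)⁻¹ := by
  unfold uv
  rw [toMul_neg, Units.val_inv_eq_inv_val]

theorem uv_sub (x y : Additive Lˣ) : uv (x - y) = uv x / uv y := by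
  rw [sub_eq_add_neg, uv_add, uv_neg, div_eq_mul_inv]

theorem uv_tau (x : Additive Lˣ) : uv (tau σ x) = σ (uv x) := rfl

theorem uv_nsmul (n : ℕ) (x : Additive Lˣ) : uv (n • x) = uv x ^ n := by
  unfold uv
  rw [toMul_nsmul, Units.val_pow_eq_pow_val]

theorem uv_ne (x : Additive Lˣ) : uv x ≠ 0 := Units.ne_zero _

theorem uv_iter (x : Additive Lˣ) (m : ℕ) :
    uv ((fun x => tau σ x - x)^[m] x) = (DD σ)^[m] (uv x) := by
  induction m with
  | zero => rfl
  | succ m ih =>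
    rw [Function.iterate_succ_apply', Function.iterate_succ_apply', ← ih, uv_sub, uv_tau]
    rfl

theorem uv_tau_iter (x : Additive Lˣ) (m : ℕ) : uv ((tau σ)^[m] x) = (σ ^ m) (uv x) := by
  induction m with
  | zero => rfl
  | succ m ih =>
    rw [Function.iterate_succ_apply', pow_succ', uv_tau, ih]
    rfl

theorem iter_D {ℓ : ℕ} (hℓ : ℓ.Prime) (n : ℕ) {z : L} (hz : z ≠ 0)
    (hσ : (σ ^ (ℓ ^ n)) z = z) : ∃ y : L, y ≠ 0 ∧ (DD σ)^[ℓ ^ n] z = y ^ ℓ := by
  obtain ⟨x, hx⟩ : ∃ x : Additive Lˣ, uv x = z := ⟨Additive.ofMul (Units.mk0 z hz), rfl⟩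
  obtain ⟨y, hy⟩ := iter_gen (M := Additive Lˣ) (tau σ) hℓ n x
  refine ⟨uv y, uv_ne _, ?_⟩
  have h1 := (uv_iter σ x (ℓ ^ n)).symm.trans (congrArg uv hy)
  have h2 : uv ((tau σ)^[ℓ ^ n] x - x + ℓ • y) = uv y ^ ℓ := by
    rw [uv_add, uv_nsmul]
    have h3 : uv ((tau σ)^[ℓ ^ n] x - x) = 1 := by
      rw [uv_sub, uv_tau_iter, hx, hσ, div_self hz]
    rw [h3, one_mul]
  rw [← hx]
  exact h1.trans h2

end iter


/-! ### Valuations -/

section val

theorem pow_sub_prod {R : Type} [CommRing R] [IsDomain R] {n : ℕ} {ζ : R}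
    (hζ : IsPrimitiveRoot ζ n) (hn : 0 < n) (x y : R) :
    x ^ n - y ^ n = ∏ i ∈ Finset.range n, (x - ζ ^ i * y) := by
  have h := congrArg (Polynomial.eval x) (X_pow_sub_C_eq_prod hζ hn (rfl : y ^ n = y ^ n))
  rw [eval_sub, eval_pow, eval_X, eval_C, eval_prod] at h
  rw [h]
  apply Finset.prod_congr rfl
  intro i _
  rw [eval_sub, eval_X, eval_C]

theorem mul_lt1 {a b : WithZero (Multiplicative ℤ)} (ha : a < 1) (hb : b ≤ 1) : a * b < 1 :=
  lt_of_le_of_lt (mul_le_of_le_one_right' hb) ha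

theorem mul_lt1' {a b : WithZero (Multiplicative ℤ)} (ha : a ≤ 1) (hb : b < 1) : a * b < 1 := by
  rw [mul_comm]
  exact mul_lt1 hb ha

theorem pow_lt_imp {a b : WithZero (Multiplicative ℤ)} {n : ℕ} (h : a ^ n < b ^ n) : a < b := by
  by_contra hcon
  exact absurd h (not_lt.2 (pow_le_pow_left₀ zero_le (not_lt.1 hcon) n))

theorem pow_eq_imp {a b : WithZero (Multiplicative ℤ)} {n : ℕ} (hn : n ≠ 0) (h : a ^ n = b ^ n) :
    a = b := (pow_left_inj₀ zero_le zero_le hn).1 h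

variable {F : Type} [CommRing F] (v : Valuation F (WithZero (Multiplicative ℤ)))

/-- a product of elements close to `y` is close to `y ^ n` -/
theorem prod_close (x : ℕ → F) (y : F) (hy : v y ≤ 1) (hx : ∀ i, v (x i - y) < 1) (n : ℕ) :
    v (∏ i ∈ Finset.range n, x i - y ^ n) < 1 := by
  induction n with
  | zero => simp
  | succ n ih =>
    have hxn : v (x n) ≤ 1 := by
      have e : x n = (x n - y) + y := by ring
      rw [e]
      exact v.map_add_le (hx n).le hy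
    have e : ∏ i ∈ Finset.range (n + 1), x i - y ^ (n + 1) =
        (∏ i ∈ Finset.range n, x i - y ^ n) * x n + y ^ n * (x n - y) := by
      rw [Finset.prod_range_succ, pow_succ]; ring
    rw [e]
    apply v.map_add_lt
    · rw [map_mul]
      exact mul_lt1 ih hxn
    · rw [map_mul, map_pow]
      exact mul_lt1' (pow_le_one₀ zero_le hy) (hx n)

theorem exists_factor [IsDomain F] {m : ℕ} (hm : 0 < m) {η : F} (hη : IsPrimitiveRoot η m)
    (X Y : F) (g : WithZero (Multiplicative ℤ)) (h : v (X ^ m - Y ^ m) < g ^ m) :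
    ∃ j : ℕ, v (X - η ^ j * Y) < g := by
  by_contra hcon
  push Not at hcon
  rw [pow_sub_prod hη hm, map_prod] at h
  have h1 : g ^ m ≤ ∏ i ∈ Finset.range m, v (X - η ^ i * Y) := by
    calc g ^ m = ∏ i ∈ Finset.range m, g := by rw [Finset.prod_const, Finset.card_range]
      _ ≤ _ := Finset.prod_le_prod' fun i _ => hcon i
  exact absurd h (not_lt.2 h1)

theorem IsPw.inv {ℓ : ℕ} {γ : WithZero (Multiplicative ℤ)} (h : IsPw ℓ γ) : IsPw ℓ γ⁻¹ := by
  obtain ⟨a, rfl⟩ := h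
  exact ⟨a⁻¹, (inv_pow _ _).symm⟩

theorem IsPw.div {ℓ : ℕ} {γ δ : WithZero (Multiplicative ℤ)} (h : IsPw ℓ γ) (h' : IsPw ℓ δ) :
    IsPw ℓ (γ / δ) := by
  rw [div_eq_mul_inv]
  exact h.mul (IsPw.inv h')

end val

/-! ### The extension -/

section kx

variable {r : ℕ} {k A R L : Type} [Field k] [CommRing A] [IsDedekindDomain A]
  [Algebra k A] [CommRing R] [IsDedekindDomain R] [Algebra A R] [Field L] [Algebra R L]
  [IsFractionRing R L] [Algebra k L] {ζ : k} {π : A} {u : R} {σ : L ≃+* L}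

variable (A R L) in
/-- the map from `A` to `L` -/
noncomputable def al : A →+* L := (algebraMap R L).comp (algebraMap A R)

theorem al_inj (K : Kx r ζ π u σ) : Function.Injective (al A R L) :=
  (IsFractionRing.injective R L).comp K.inj

theorem al_ne (K : Kx r ζ π u σ) {a : A} (ha : a ≠ 0) : al A R L a ≠ 0 :=
  (map_ne_zero_iff _ (al_inj K)).2 ha

theorem kk (K : Kx r ζ π u σ) (c : k) : algebraMap k L c = al A R L (algebraMap k A c) := K.sk c

theorem sig_al (K : Kx r ζ π u σ) (a : A) : σ (al A R L a) = al A R L a := K.sa a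

theorem sig_k (K : Kx r ζ π u σ) (c : k) : σ (algebraMap k L c) = algebraMap k L c := by
  rw [kk K]; exact K.sa _

theorem kL_ne {c : k} (hc : c ≠ 0) : algebraMap k L c ≠ 0 :=
  (map_ne_zero_iff _ (algebraMap k L).injective).2 hc

/-- the norm -/
noncomputable def Nm (r : ℕ) (σ : L ≃+* L) (y : L) : L := ∏ i ∈ Finset.range r, (σ ^ i) y

theorem Nm_mul (x y : L) : Nm r σ (x * y) = Nm r σ x * Nm r σ y := by
  unfold Nm
  rw [← Finset.prod_mul_distrib]
  exact Finset.prod_congr rfl fun i _ => map_mul _ _ _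

theorem Nm_pow (x : L) (n : ℕ) : Nm r σ (x ^ n) = Nm r σ x ^ n := by
  unfold Nm
  rw [← Finset.prod_pow]
  exact Finset.prod_congr rfl fun i _ => map_pow _ _ _

theorem sig_pow_fix {y : L} (h : σ y = y) (i : ℕ) : (σ ^ i) y = y := by
  induction i with
  | zero => rfl
  | succ i ih =>
    rw [pow_succ]
    show (σ ^ i) (σ y) = y
    rw [h, ih]

theorem Nm_fix {y : L} (h : σ y = y) : Nm r σ y = y ^ r := by
  unfold Nm
  rw [Finset.prod_congr rfl fun i _ => sig_pow_fix h i, Finset.prod_const, Finset.card_range]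

theorem sig_pow_ne {y : L} (h : y ≠ 0) (i : ℕ) : (σ ^ i) y ≠ 0 :=
  (map_ne_zero_iff _ (σ ^ i).injective).2 h

theorem Nm_ne {y : L} (h : y ≠ 0) : Nm r σ y ≠ 0 :=
  Finset.prod_ne_zero_iff.2 fun i _ => sig_pow_ne h i

theorem Nm_sig (K : Kx r ζ π u σ) {y : L} (hy : y ≠ 0) : Nm r σ (σ y) = Nm r σ y := by
  have h1 : ∏ i ∈ Finset.range (r + 1), (σ ^ i) y = Nm r σ y * y := by
    rw [Finset.prod_range_succ, K.sr]
    rfl
  have h2 : ∏ i ∈ Finset.range (r + 1), (σ ^ i) y = Nm r σ (σ y) * y := by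
    rw [Finset.prod_range_succ']
    rfl
  exact mul_right_cancel₀ hy (h2.symm.trans h1)

theorem v_const (v : HeightOneSpectrum A) {c : k} (hc : c ≠ 0) :
    v.intValuation (algebraMap k A c) = 1 := by
  apply le_antisymm (v.intValuation_le_one _)
  have h1 : algebraMap k A c * algebraMap k A c⁻¹ = 1 := by
    rw [← map_mul, mul_inv_cancel₀ hc, map_one]
  have h2 := congrArg v.intValuation h1
  rw [map_mul, map_one] at h2
  rw [← h2]
  exact mul_le_of_le_one_right' (v.intValuation_le_one _)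

theorem P_const (K : Kx r ζ π u σ) (P : HeightOneSpectrum R) {c : k} (hc : c ≠ 0) :
    P.valuation L (algebraMap k L c) = 1 := by
  have hle : ∀ c : k, P.valuation L (algebraMap k L c) ≤ 1 := by
    intro c
    rw [K.sk c]
    exact P.valuation_le_one _
  apply le_antisymm (hle c)
  have h1 : algebraMap k L c * algebraMap k L c⁻¹ = 1 := by
    rw [← map_mul, mul_inv_cancel₀ hc, map_one]
  have h2 := congrArg (P.valuation L) h1
  rw [map_mul, map_one] at h2
  rw [← h2]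
  exact mul_le_of_le_one_right' (hle _)

/-- the generator -/
noncomputable def ug (L : Type) [Field L] [Algebra R L] (u : R) : L := algebraMap R L u

theorem sig_u (K : Kx r ζ π u σ) (i : ℕ) :
    (σ ^ i) (ug L u) = algebraMap k L (ζ ^ i) * ug L u := by
  induction i with
  | zero => rw [pow_zero, pow_zero, map_one, one_mul]; rfl
  | succ i ih =>
    rw [pow_succ]
    show (σ ^ i) (σ (ug L u)) = _
    have h1 : σ (ug L u) = algebraMap k L ζ * ug L u := K.su
    rw [h1, map_mul, ih, sig_pow_fix (sig_k K ζ), pow_succ, map_mul]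
    ring

theorem ug_pow (K : Kx r ζ π u σ) : ug L u ^ r = al A R L π := by
  unfold ug
  rw [← map_pow, K.pw]
  rfl

theorem Nm_u (K : Kx r ζ π u σ) (hr : 0 < r) (hζ : IsPrimitiveRoot ζ r) :
    Nm r σ (ug L u) = al A R L ((-1) ^ (r - 1) * π) := by
  have h1 : Nm r σ (ug L u) = algebraMap k L (∏ i ∈ Finset.range r, ζ ^ i) * ug L u ^ r := by
    unfold Nm
    rw [Finset.prod_congr rfl fun i _ => sig_u K i, Finset.prod_mul_distrib, Finset.prod_const,
      Finset.card_range, map_prod]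
  have h2 : ∏ i ∈ Finset.range r, ζ ^ i = (-1) ^ (r - 1) := by
    have h3 := pow_sub_prod hζ hr 0 1
    have h4 : ∏ i ∈ Finset.range r, ((0 : k) - ζ ^ i * 1) =
        (-1) ^ r * ∏ i ∈ Finset.range r, ζ ^ i := by
      have : ∀ i ∈ Finset.range r, ((0 : k) - ζ ^ i * 1) = (-1) * ζ ^ i := fun i _ => by ring
      rw [Finset.prod_congr rfl this, Finset.prod_mul_distrib, Finset.prod_const,
        Finset.card_range]
    rw [h4, zero_pow hr.ne', one_pow, zero_sub] at h3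
    obtain ⟨m, rfl⟩ := Nat.exists_eq_succ_of_ne_zero hr.ne'
    have h5 : ((-1 : k) ^ m) * (-1) ^ m = 1 := by rw [← mul_pow]; simp
    rw [Nat.succ_sub_one]
    rw [pow_succ] at h3
    linear_combination ((-1) ^ m) * h3 - (∏ i ∈ Finset.range m.succ, ζ ^ i) * h5
  rw [h1, h2, ug_pow K, map_mul]
  congr 1
  rw [map_pow, map_neg, map_one, map_pow, map_neg, map_one]

theorem P_sig_pow {P : HeightOneSpectrum R} (h : ∀ z : L, P.valuation L (σ z) = P.valuation L z)
    (i : ℕ) (z : L) : P.valuation L ((σ ^ i) z) = P.valuation L z := by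
  induction i generalizing z with
  | zero => rfl
  | succ i ih =>
    rw [pow_succ]
    show P.valuation L ((σ ^ i) (σ z)) = _
    rw [ih, h]

theorem P_Nm {P : HeightOneSpectrum R} (h : ∀ z : L, P.valuation L (σ z) = P.valuation L z)
    (z : L) : P.valuation L (Nm r σ z) = P.valuation L z ^ r := by
  unfold Nm
  rw [map_prod, Finset.prod_congr rfl fun i _ => P_sig_pow h i z, Finset.prod_const,
    Finset.card_range]

theorem exists_res {P : HeightOneSpectrum R} {v : HeightOneSpectrum A} (hr : 0 < r)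
    (h1 : ∀ a : A, P.valuation L (al A R L a) = v.intValuation a ^ r)
    (h3 : ∀ z : L, P.valuation L (σ z) = P.valuation L z)
    (h4 : ∀ z : L, P.valuation L z ≤ 1 → ∃ a : A, P.valuation L (z - al A R L a) < 1)
    (K : Kx r ζ π u σ) (w : L) (hw : P.valuation L w = 1) :
    ∃ w0 : A, v.intValuation w0 = 1 ∧ P.valuation L (w - al A R L w0) < 1 ∧
      P.valuation L (Nm r σ w - al A R L w0 ^ r) < 1 := by
  obtain ⟨w0, hw0⟩ := h4 w hw.le
  have e1 : P.valuation L (al A R L w0) = 1 := by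
    have : al A R L w0 = w - (w - al A R L w0) := by ring
    rw [this, Valuation.map_sub_eq_of_lt_left _ (by rw [hw]; exact hw0), hw]
  refine ⟨w0, ?_, hw0, ?_⟩
  · rw [h1] at e1
    exact pow_eq_imp hr.ne' (by rw [e1, one_pow])
  · apply prod_close (P.valuation L) (fun i => (σ ^ i) w) (al A R L w0) e1.le
    intro i
    have : (σ ^ i) w - al A R L w0 = (σ ^ i) (w - al A R L w0) := by
      rw [map_sub, sig_pow_fix (sig_al K w0)]
    rw [this, P_sig_pow h3]
    exact hw0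

theorem exists_inv (v : HeightOneSpectrum A) {t : A} (ht : v.intValuation t = 1) :
    ∃ y : A, v.intValuation (y * t - 1) < 1 := by
  have h1 : t ∉ v.asIdeal := by
    rw [← v.intValuation_lt_one_iff_mem, ht]
    exact lt_irrefl _
  obtain ⟨y, i, hi, hy⟩ := (v.isPrime.isMaximal v.ne_bot).exists_inv h1
  refine ⟨y, ?_⟩
  rw [v.intValuation_lt_one_iff_mem]
  have : y * t - 1 = -i := by rw [← hy]; ring
  rw [this]
  exact v.asIdeal.neg_mem hi

/-- The norm of the multiplier. -/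
theorem Nm_w {ℓ r' : ℕ} (K : Kx r ζ π u σ) (hℓ : 0 < ℓ) (hr' : 0 < r') (hrr : r = ℓ * r')
    (hζ : IsPrimitiveRoot ζ r) {c : k} {d : A} {w z : L} (hz : z ≠ 0)
    (h : σ z = algebraMap k L c * al A R L d * w ^ ℓ * z) :
    ∃ i : ℕ, Nm r σ w * algebraMap k L c ^ r' * al A R L d ^ r' = algebraMap k L (ζ ^ (r' * i)) := by
  have h1 : Nm r σ (σ z) = algebraMap k L c ^ r * al A R L d ^ r * Nm r σ w ^ ℓ * Nm r σ z := by
    rw [h, Nm_mul, Nm_mul, Nm_mul, Nm_pow, Nm_fix (sig_k K c), Nm_fix (sig_al K d)]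
  rw [Nm_sig K hz] at h1
  have h2 : (Nm r σ w * algebraMap k L c ^ r' * al A R L d ^ r') ^ ℓ = 1 := by
    apply mul_right_cancel₀ (Nm_ne (r := r) (σ := σ) hz)
    rw [one_mul]
    conv_rhs => rw [h1]
    rw [hrr]
    ring
  have h3 : IsPrimitiveRoot (algebraMap k L (ζ ^ r')) ℓ :=
    (hζ.pow (by rw [hrr]; positivity) (by rw [hrr, mul_comm])).map_of_injective
      (algebraMap k L).injective
  haveI : NeZero ℓ := ⟨hℓ.ne'⟩
  obtain ⟨i, hi, h4⟩ := h3.eq_pow_of_pow_eq_one h2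
  refine ⟨i, ?_⟩
  rw [← h4, pow_mul, ← map_pow]

/-- The local computation at a ramified place. -/
theorem loc {ℓ r' : ℕ} (K : Kx r ζ π u σ) (hℓ : 0 < ℓ) (hr' : 0 < r') (hrr : r = ℓ * r')
    (hζ : IsPrimitiveRoot ζ r) {c : k} {d : A} {w : L} (hc : c ≠ 0) (hd : d ≠ 0) (hw : w ≠ 0)
    {i : ℕ}
    (h : Nm r σ w * algebraMap k L c ^ r' * al A R L d ^ r' = algebraMap k L (ζ ^ (r' * i)))
    (v : HeightOneSpectrum A) (hv : v.intValuation π ≠ 1) :
    ∃ (e : ℕ) (w1 : A), v.intValuation w1 = 1 ∧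
        v.intValuation (algebraMap k A (c * (ζ ^ i)⁻¹) * d - ((-1) ^ (r - 1) * π) ^ e * w1 ^ ℓ) <
          exp (-(e : ℤ)) := by
  have hr : 0 < r := by rw [hrr]; positivity
  obtain ⟨P, hP1, hP2, hP3, hP4⟩ := K.ram v hv
  obtain ⟨e, he⟩ : ∃ e : ℕ, v.intValuation d = exp (-(e : ℤ)) := ⟨_, v.intValuation_if_neg hd⟩
  have hPal : ∀ a : A, P.valuation L (al A R L a) = v.intValuation a ^ r := hP1
  have hPu : P.valuation L (ug L u) = exp (-1 : ℤ) := hP2
  have hζ0 : ζ ≠ 0 := hζ.ne_zero hr.ne'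
  have hg0 : (exp (-(e : ℤ)) : WithZero (Multiplicative ℤ)) ≠ 0 := exp_ne_zero
  -- the valuation of `w`
  have hPw : P.valuation L w * exp (-(e : ℤ)) ^ r' = 1 := by
    have h1 := congrArg (P.valuation L) h
    rw [map_mul, map_mul, P_Nm hP3, map_pow, map_pow, P_const K P hc, hPal, he, one_pow, mul_one,
      P_const K P (pow_ne_zero _ hζ0)] at h1
    apply pow_eq_imp hr.ne'
    rw [one_pow, mul_pow, ← pow_mul, mul_comm r' r, pow_mul]
    exact h1
  obtain ⟨w', hw'⟩ : ∃ w', w' = w * ug L u ^ (e * r') := ⟨_, rfl⟩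
  have hPw' : P.valuation L w' = 1 := by
    rw [hw', map_mul, map_pow, hPu, ← hPw, pow_mul]
    congr 2
    rw [← exp_nsmul]
    congr 1
    simp
  obtain ⟨w0, hw0, -, hclose⟩ := exists_res hr hPal hP3 hP4 K w' hPw'
  obtain ⟨ν, hν⟩ : ∃ ν : A, ν = (-1) ^ (r - 1) * π := ⟨_, rfl⟩
  have hNw' : Nm r σ w' = Nm r σ w * al A R L ν ^ (e * r') := by
    rw [hw', Nm_mul, Nm_pow, Nm_u K hr hζ, hν]
  -- the congruence in `A`
  obtain ⟨X, hX⟩ : ∃ X : A, X = algebraMap k A (ζ ^ i) * ν ^ e := ⟨_, rfl⟩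
  obtain ⟨Y, hY⟩ : ∃ Y : A, Y = w0 ^ ℓ * algebraMap k A c * d := ⟨_, rfl⟩
  have hXY : v.intValuation (X ^ r' - Y ^ r') < exp (-(e : ℤ)) ^ r' := by
    have e1 : al A R L (X ^ r' - Y ^ r') = (Nm r σ w' - al A R L w0 ^ r) *
        (algebraMap k L c ^ r' * al A R L d ^ r') := by
      rw [hNw', sub_mul]
      have e2 : Nm r σ w * al A R L ν ^ (e * r') * (algebraMap k L c ^ r' * al A R L d ^ r') =
          algebraMap k L (ζ ^ (r' * i)) * al A R L ν ^ (e * r') := by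
        rw [← h]; ring
      have hXl : al A R L X = algebraMap k L (ζ ^ i) * al A R L ν ^ e := by
        rw [hX, map_mul, ← kk K, map_pow (al A R L)]
      have hYl : al A R L Y = al A R L w0 ^ ℓ * algebraMap k L c * al A R L d := by
        rw [hY, map_mul, map_mul, map_pow, ← kk K]
      have hz1 : algebraMap k L (ζ ^ (r' * i)) = algebraMap k L (ζ ^ i) ^ r' := by
        rw [← map_pow, ← pow_mul, mul_comm]
      have hz2 : al A R L w0 ^ r = (al A R L w0 ^ ℓ) ^ r' := by rw [← pow_mul, ← hrr]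
      rw [e2, map_sub, map_pow, map_pow, hXl, hYl, hz1, hz2]
      ring
    have e3 : v.intValuation (X ^ r' - Y ^ r') ^ r < (exp (-(e : ℤ)) ^ r') ^ r := by
      rw [← hPal, e1, map_mul, map_mul, map_pow, map_pow, P_const K P hc, hPal, he, one_pow,
        one_mul, ← pow_mul _ r r', mul_comm r r', pow_mul]
      exact mul_lt_of_lt_one_left (pow_pos (pow_pos (zero_lt_iff.2 hg0) _) _) hclose
    exact pow_lt_imp e3
  have hη : IsPrimitiveRoot (algebraMap k A (ζ ^ ℓ)) r' :=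
    (hζ.pow hr hrr).map_of_injective (algebraMap k A).injective
  obtain ⟨j, hj⟩ := exists_factor v.intValuation hr' hη X Y _ hXY
  -- conclusion
  obtain ⟨t, ht⟩ : ∃ t : A, t = algebraMap k A (ζ ^ j) * w0 := ⟨_, rfl⟩
  have hvt : v.intValuation t = 1 := by
    rw [ht, map_mul, v_const v (pow_ne_zero _ hζ0), hw0, one_mul]
  obtain ⟨w1, hw1⟩ := exists_inv v hvt
  have hvw1t : v.intValuation (w1 * t) = 1 := by
    have : w1 * t = 1 + (w1 * t - 1) := by ring
    rw [this, Valuation.map_one_add_of_lt _ hw1]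
  have hvw1 : v.intValuation w1 = 1 := by
    rw [map_mul, hvt, mul_one] at hvw1t
    exact hvw1t
  refine ⟨e, w1, hvw1, ?_⟩
  have hcl : v.intValuation (1 - (w1 * t) ^ ℓ) < 1 := by
    have h1 := prod_close v.intValuation (fun _ => w1 * t) 1 (by rw [map_one]) (fun _ => hw1) ℓ
    rw [Finset.prod_const, Finset.card_range, one_pow] at h1
    rw [Valuation.map_sub_swap]
    exact h1
  obtain ⟨Z, hZ⟩ : ∃ Z : A, Z = X - algebraMap k A (ζ ^ ℓ) ^ j * Y := ⟨_, rfl⟩
  rw [← hZ] at hj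
  have e1 : algebraMap k A (ζ ^ ℓ) ^ j * Y = t ^ ℓ * (algebraMap k A c * d) := by
    rw [hY, ht, map_pow, map_pow, mul_pow]
    ring
  have e2 : algebraMap k A (ζ ^ i) * ν ^ e = t ^ ℓ * (algebraMap k A c * d) + Z := by
    rw [hZ, e1, hX]; ring
  have e3 : algebraMap k A (ζ ^ i)⁻¹ * algebraMap k A (ζ ^ i) = 1 := by
    rw [← map_mul, inv_mul_cancel₀ (pow_ne_zero _ hζ0), map_one]
  have e4 : algebraMap k A (c * (ζ ^ i)⁻¹) * d - ν ^ e * w1 ^ ℓ =
      algebraMap k A (ζ ^ i)⁻¹ * ((algebraMap k A c * d) * (1 - (w1 * t) ^ ℓ) - Z * w1 ^ ℓ) := by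
    rw [map_mul, mul_pow]
    linear_combination (-ν ^ e * w1 ^ ℓ) * (-e3) + (algebraMap k A (ζ ^ i)⁻¹ * w1 ^ ℓ) * (-e2)
  rw [← hν, e4, map_mul, v_const v (inv_ne_zero (pow_ne_zero _ hζ0)), one_mul]
  apply Valuation.map_sub_lt
  · rw [map_mul, map_mul, v_const v hc, one_mul, he]
    exact mul_lt_of_lt_one_right (zero_lt_iff.2 hg0) hcl
  · rw [map_mul, map_pow, hvw1, one_pow, mul_one]
    exact hj

/-- A constant residue. -/
theorem const_res {ℓ : ℕ} (hℓ : 0 < ℓ) {η : k} (hη : IsPrimitiveRoot η ℓ)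
    (v : HeightOneSpectrum A) (hgood : ∀ (c : k) (w : A),
      v.intValuation (algebraMap k A c - w ^ ℓ) < 1 → ∃ s : k, s ^ ℓ = c) (m : ℕ) (n : k) (w0 : A)
    (h : v.intValuation (algebraMap k A n - w0 ^ (ℓ ^ m)) < 1) :
    ∃ s : k, v.intValuation (algebraMap k A s - w0) < 1 := by
  induction m generalizing n with
  | zero => exact ⟨n, by simpa using h⟩
  | succ m ih =>
    rw [pow_succ, pow_mul] at h
    obtain ⟨s, rfl⟩ := hgood n _ h
    rw [Valuation.map_sub_swap, map_pow] at h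
    obtain ⟨j, hj⟩ := exists_factor v.intValuation hℓ
      (hη.map_of_injective (algebraMap k A).injective) (w0 ^ (ℓ ^ m)) (algebraMap k A s) 1
      (by rw [one_pow]; exact h)
    apply ih (η ^ j * s)
    rw [Valuation.map_sub_swap, map_mul, map_pow]
    exact hj

/-- The key step. -/
theorem claim {ℓ s r' : ℕ} (K : Kx r ζ π u σ) (V : Set A) (hℓ : ℓ.Prime) (hrs : r = ℓ ^ (s + 1))
    (hr's : r' = ℓ ^ s) (hζ : IsPrimitiveRoot ζ r) (hV0 : 0 ∉ V)
    (hF : ∀ a b : A, a ≠ 0 → b ≠ 0 → (∀ v : HeightOneSpectrum A, v.intValuation π = 1 →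
      IsPw ℓ (v.intValuation a / v.intValuation b)) →
      ∃ (c : k) (d w w' : A), c ≠ 0 ∧ d ∈ V ∧ w ≠ 0 ∧ w' ≠ 0 ∧
      a * w' ^ ℓ = algebraMap k A c * d * b * w ^ ℓ)
    (hres : ∀ (c : k) (d : A), c ≠ 0 → d ∈ V → (∀ v : HeightOneSpectrum A, v.intValuation π ≠ 1 →
      ∃ (e : ℕ) (w : A), v.intValuation w = 1 ∧
        v.intValuation (algebraMap k A c * d - ((-1) ^ (r - 1) * π) ^ e * w ^ ℓ) <
          exp (-(e : ℤ))) →
      ∃ (c' : k) (y : L), c' ≠ 0 ∧ y ≠ 0 ∧ al A R L d = algebraMap k L c' * y ^ ℓ)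
    (hgood : ∃ v : HeightOneSpectrum A, v.intValuation π ≠ 1 ∧ ∀ (c : k) (w : A),
      v.intValuation (algebraMap k A c - w ^ ℓ) < 1 → ∃ s : k, s ^ ℓ = c)
    (z : L) (hz : z ≠ 0) (hP : ∀ P : HeightOneSpectrum R, IsPw ℓ (P.valuation L z))
    (hD : ∃ (c : k) (d : A) (w : L), c ≠ 0 ∧ d ∈ V ∧ w ≠ 0 ∧
      DD σ z = algebraMap k L c * al A R L d * w ^ ℓ) :
    ∃ (c : k) (d : A) (w : L), c ≠ 0 ∧ d ∈ V ∧ w ≠ 0 ∧
      z = algebraMap k L c * al A R L d * w ^ ℓ := by
  have hℓ0 : 0 < ℓ := hℓ.pos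
  have hr' : 0 < r' := by rw [hr's]; exact pow_pos hℓ0 _
  have hrr : r = ℓ * r' := by rw [hrs, hr's, pow_succ']
  have hr : 0 < r := by rw [hrr]; positivity
  have hζ0 : ζ ≠ 0 := hζ.ne_zero hr.ne'
  obtain ⟨c, d, w, hc, hd, hw, hDz⟩ := hD
  have hd0 : d ≠ 0 := by
    rintro rfl
    exact hV0 hd
  have h1 : σ z = algebraMap k L c * al A R L d * w ^ ℓ * z := by
    rw [← hDz, DD, div_mul_cancel₀ _ hz]
  obtain ⟨i, hi⟩ := Nm_w K hℓ0 hr' hrr hζ hz h1
  obtain ⟨c'', y, hc'', hy, hdy⟩ := hres (c * (ζ ^ i)⁻¹) d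
    (mul_ne_zero hc (inv_ne_zero (pow_ne_zero _ hζ0))) hd
    (fun v hv => loc K hℓ0 hr' hrr hζ hc hd0 hw hi v hv)
  -- the multiplier is a constant times an `ℓ`-th power
  obtain ⟨c1, hc1⟩ : ∃ c1, c1 = c * c'' := ⟨_, rfl⟩
  have hc10 : c1 ≠ 0 := by rw [hc1]; exact mul_ne_zero hc hc''
  obtain ⟨W, hW⟩ : ∃ W, W = y * w := ⟨_, rfl⟩
  have hW0 : W ≠ 0 := by rw [hW]; exact mul_ne_zero hy hw
  have h2 : σ z = algebraMap k L c1 * al A R L 1 * W ^ ℓ * z := by
    rw [h1, hdy, hc1, hW, map_mul, map_one]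
    ring
  obtain ⟨i1, hi1⟩ := Nm_w K hℓ0 hr' hrr hζ hz h2
  rw [map_one, one_pow, mul_one] at hi1
  obtain ⟨n0, hn0⟩ : ∃ n0, n0 = ζ ^ (r' * i1) * (c1 ^ r')⁻¹ := ⟨_, rfl⟩
  have hn00 : n0 ≠ 0 := by
    rw [hn0]
    exact mul_ne_zero (pow_ne_zero _ hζ0) (inv_ne_zero (pow_ne_zero _ hc10))
  have hNW : Nm r σ W = algebraMap k L n0 := by
    rw [hn0, map_mul, ← hi1, map_inv₀, map_pow, mul_inv_cancel_right₀]
    exact pow_ne_zero _ (kL_ne hc10)
  -- the good place
  obtain ⟨v0, hv0, hg0⟩ := hgood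
  obtain ⟨P0, hP1, hP2, hP3, hP4⟩ := K.ram v0 hv0
  have hPal : ∀ a : A, P0.valuation L (al A R L a) = v0.intValuation a ^ r := hP1
  have hPu : P0.valuation L (ug L u) = exp (-1 : ℤ) := hP2
  have hPW : P0.valuation L W = 1 := by
    apply pow_eq_imp hr.ne'
    rw [← P_Nm hP3, hNW, P_const K P0 hn00, one_pow]
  obtain ⟨w0, hw0, hcl, hNcl⟩ := exists_res hr hPal hP3 hP4 K W hPW
  have hv1 : v0.intValuation (algebraMap k A n0 - w0 ^ (ℓ ^ (s + 1))) < 1 := by
    apply pow_lt_imp (n := r)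
    rw [← hPal, map_sub, ← kk K, ← hNW, map_pow, ← hrs, one_pow]
    exact hNcl
  obtain ⟨s0, hs0⟩ := const_res hℓ0 (hζ.pow hr (by rw [hrr, mul_comm])) v0 hg0 (s + 1) n0 w0 hv1
  have hs00 : s0 ≠ 0 := by
    rintro rfl
    rw [map_zero, zero_sub, Valuation.map_neg, hw0] at hs0
    exact lt_irrefl _ hs0
  have hPs0 : P0.valuation L (W - algebraMap k L s0) < 1 := by
    have e1 : P0.valuation L (algebraMap k L s0 - al A R L w0) < 1 := by
      rw [kk K, ← map_sub, hPal]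
      exact pow_lt_one₀ zero_le hs0 hr.ne'
    have e2 : W - algebraMap k L s0 = (W - al A R L w0) - (algebraMap k L s0 - al A R L w0) := by
      ring
    rw [e2]
    exact Valuation.map_sub_lt _ hcl e1
  have hks0 : algebraMap k L s0 ≠ 0 := kL_ne hs00
  obtain ⟨W', hW'⟩ : ∃ W', W' = W * algebraMap k L s0⁻¹ := ⟨_, rfl⟩
  have hWW' : W = W' * algebraMap k L s0 := by
    rw [hW', map_inv₀, inv_mul_cancel_right₀ hks0]
  have hPW' : P0.valuation L (W' - 1) < 1 := by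
    have e1 : W' - 1 = (W - algebraMap k L s0) * algebraMap k L s0⁻¹ := by
      rw [hW', sub_mul, ← map_mul, mul_inv_cancel₀ hs00, map_one]
    rw [e1, map_mul, P_const K P0 (inv_ne_zero hs00), mul_one]
    exact hPs0
  obtain ⟨n1, hn1⟩ : ∃ n1, n1 = n0 * (s0⁻¹) ^ r := ⟨_, rfl⟩
  have hNW' : Nm r σ W' = algebraMap k L n1 := by
    rw [hW', Nm_mul, hNW, Nm_fix (sig_k K _), hn1, map_mul, map_pow]
  have hn1' : n1 = 1 := by
    by_contra hne
    have e1 : P0.valuation L (Nm r σ W' - 1 ^ r) < 1 := by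
      apply prod_close (P0.valuation L) (fun i => (σ ^ i) W') 1 (by rw [map_one])
      intro i
      have : (σ ^ i) W' - 1 = (σ ^ i) (W' - 1) := by rw [map_sub, map_one]
      rw [this, P_sig_pow hP3]
      exact hPW'
    rw [hNW', one_pow, ← map_one (algebraMap k L), ← map_sub, P_const K P0 (sub_ne_zero.2 hne)] at e1
    exact lt_irrefl _ e1
  obtain ⟨y2, hy2, hσy2⟩ := K.h90 W' (by
    show Nm r σ W' = 1
    rw [hNW', hn1', map_one])
  -- `z' = z / y2 ^ ℓ`
  have hW'0 : W' ≠ 0 := by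
    rintro rfl
    rw [zero_mul] at hWW'
    exact hW0 hWW'
  obtain ⟨c2, hc2⟩ : ∃ c2, c2 = c1 * s0 ^ ℓ := ⟨_, rfl⟩
  obtain ⟨z', hz'⟩ : ∃ z', z' = z / y2 ^ ℓ := ⟨_, rfl⟩
  have hz'0 : z' ≠ 0 := by rw [hz']; exact div_ne_zero hz (pow_ne_zero _ hy2)
  have hzz' : z = z' * y2 ^ ℓ := by rw [hz', div_mul_cancel₀ _ (pow_ne_zero _ hy2)]
  have h3 : σ z' = algebraMap k L c2 * z' := by
    rw [hz', map_div₀, map_pow, hσy2, h2, hWW', hc2, map_mul, map_pow, map_one]
    have := pow_ne_zero ℓ hW'0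
    have := pow_ne_zero ℓ hy2
    field_simp
    ring
  have h4 : ∀ i, (σ ^ i) z' = algebraMap k L (c2 ^ i) * z' := by
    intro i
    induction i with
    | zero => rw [pow_zero, pow_zero, map_one, one_mul]; rfl
    | succ i ih =>
      rw [pow_succ]
      show (σ ^ i) (σ z') = _
      rw [h3, map_mul, ih, sig_pow_fix (sig_k K c2), pow_succ, map_mul]
      ring
  have h5 : c2 ^ r = 1 := by
    have e1 := h4 r
    rw [K.sr] at e1
    have e2 : algebraMap k L (c2 ^ r) = 1 := by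
      apply mul_right_cancel₀ hz'0
      rw [← e1, one_mul]
    exact (algebraMap k L).injective (by rw [e2, map_one])
  haveI : NeZero r := ⟨hr.ne'⟩
  obtain ⟨j, hj, hjc⟩ := hζ.eq_pow_of_pow_eq_one h5
  have hug0 : ug L u ≠ 0 := by
    intro h0
    rw [h0, map_zero] at hPu
    exact exp_ne_zero hPu.symm
  obtain ⟨t, ht⟩ : ∃ t, t = z' / ug L u ^ j := ⟨_, rfl⟩
  have htj : z' = t * ug L u ^ j := by rw [ht, div_mul_cancel₀ _ (pow_ne_zero _ hug0)]
  have h6 : σ t = t := by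
    have e1 : σ (ug L u) = algebraMap k L ζ * ug L u := K.su
    rw [ht, map_div₀, map_pow, e1, h3, ← hjc, map_pow, mul_pow,
      mul_div_mul_left _ _ (pow_ne_zero _ (kL_ne hζ0))]
  obtain ⟨a, b, hb, hab⟩ := K.fix t h6
  have hab' : t * al A R L b = al A R L a := hab
  have hbL : al A R L b ≠ 0 := al_ne K hb
  have ha : a ≠ 0 := by
    rintro rfl
    rw [map_zero] at hab'
    rcases mul_eq_zero.1 hab' with h | h
    · rw [h, zero_mul] at htj
      exact hz'0 htj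
    · exact hbL h
  have haL : al A R L a ≠ 0 := al_ne K ha
  have hval : ∀ P : HeightOneSpectrum R, P.valuation L z * P.valuation L (al A R L b) =
      P.valuation L (al A R L a) * P.valuation L (ug L u) ^ j * P.valuation L y2 ^ ℓ := by
    intro P
    rw [← map_mul, ← map_pow, ← map_pow, ← map_mul, ← map_mul]
    congr 1
    rw [hzz', htj, ← hab']
    ring
  have hy2v : ∀ P : HeightOneSpectrum R, P.valuation L y2 ≠ 0 := fun P =>
    (Valuation.ne_zero_iff _).2 hy2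
  -- `ℓ` divides `j`
  have hjℓ : ℓ ∣ j := by
    obtain ⟨δ, hδ⟩ := hP P0
    have e1 := hval P0
    rw [hδ, hPal, hPal, hPu, hrr, mul_comm ℓ r', pow_mul, pow_mul] at e1
    have hva : (v0.intValuation a ^ r') ^ ℓ ≠ 0 :=
      pow_ne_zero _ (pow_ne_zero _ (v0.intValuation_ne_zero a ha))
    have hvb : (v0.intValuation b ^ r') ^ ℓ ≠ 0 :=
      pow_ne_zero _ (pow_ne_zero _ (v0.intValuation_ne_zero b hb))
    have hvy : P0.valuation L y2 ^ ℓ ≠ 0 := pow_ne_zero _ (hy2v P0)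
    obtain ⟨γ, hγ⟩ : ∃ γ, γ = δ * v0.intValuation b ^ r' * (v0.intValuation a ^ r')⁻¹ *
      (P0.valuation L y2)⁻¹ := ⟨_, rfl⟩
    have e2 : exp (-1 : ℤ) ^ j = γ ^ ℓ := by
      rw [hγ, mul_pow, mul_pow, mul_pow, inv_pow, inv_pow, e1]
      field_simp
    have hγ0 : γ ≠ 0 := by
      rintro rfl
      rw [zero_pow hℓ0.ne'] at e2
      exact pow_ne_zero _ exp_ne_zero e2
    have e3 := congrArg log e2
    rw [log_pow, log_pow, log_exp] at e3
    have e4 : (j : ℤ) = ℓ * (-log γ) := by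
      simp only [nsmul_eq_mul] at e3
      linarith
    exact Int.natCast_dvd_natCast.1 ⟨_, e4⟩
  obtain ⟨j', rfl⟩ := hjℓ
  obtain ⟨c3, d3, w3, w3', hc3, hd3, hw3, hw3', h7⟩ := hF a b ha hb (fun v hv => by
    obtain ⟨P, hP⟩ := K.unram v hv
    have hPal' : ∀ a : A, P.valuation L (al A R L a) = v.intValuation a := hP
    have e1 : P.valuation L (ug L u) = 1 := by
      apply pow_eq_imp hr.ne'
      rw [← map_pow, ug_pow K, hPal', hv, one_pow]
    have e2 := hval P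
    rw [e1, one_pow, mul_one, hPal', hPal'] at e2
    have hvb : v.intValuation b ≠ 0 := v.intValuation_ne_zero b hb
    obtain ⟨δ, hδ⟩ := ‹∀ P : HeightOneSpectrum R, IsPw ℓ (P.valuation L z)› P
    have hvy : P.valuation L y2 ^ ℓ ≠ 0 := pow_ne_zero _ (hy2v P)
    refine ⟨δ / P.valuation L y2, ?_⟩
    rw [div_pow, ← hδ, div_eq_div_iff hvb hvy]
    exact e2.symm)
  have hw3L : al A R L w3 ≠ 0 := al_ne K hw3
  have hw3L' : al A R L w3' ≠ 0 := al_ne K hw3'
  refine ⟨c3, d3, al A R L w3 / al A R L w3' * ug L u ^ j' * y2, hc3, hd3,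
    mul_ne_zero (mul_ne_zero (div_ne_zero hw3L hw3L') (pow_ne_zero _ hug0)) hy2, ?_⟩
  have h8 := congrArg (al A R L) h7
  rw [map_mul, map_pow, map_mul, map_mul, map_mul, map_pow, ← kk K] at h8
  have h9 : t = algebraMap k L c3 * al A R L d3 * (al A R L w3 / al A R L w3') ^ ℓ := by
    apply mul_right_cancel₀ hbL
    rw [hab', div_pow]
    have := pow_ne_zero ℓ hw3L'
    field_simp
    linear_combination h8
  rw [hzz', htj, h9, mul_pow, mul_pow, ← pow_mul, mul_comm j' ℓ]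
  ring

end kx

theorem stTS : StTS := by
  intro ℓ s r k A R L _ _ _ _ _ _ _ _ _ _ _ ζ π u σ V hℓ hr hζ K hπ hV hF hres hgood z hz hP
  have key : ∀ (n : ℕ) (z : L), z ≠ 0 → (∀ P : HeightOneSpectrum R, IsPw ℓ (P.valuation L z)) →
      (∃ (c : k) (d : A) (w : L), c ≠ 0 ∧ d ∈ V ∧ w ≠ 0 ∧
        (DD σ)^[n] z = algebraMap k L c * al A R L d * w ^ ℓ) →
      ∃ (c : k) (d : A) (w : L), c ≠ 0 ∧ d ∈ V ∧ w ≠ 0 ∧
        z = algebraMap k L c * al A R L d * w ^ ℓ := by
    intro n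
    induction n with
    | zero => intro z _ _ h; exact h
    | succ n ih =>
      intro z hz hP h
      apply claim (s := s) (r' := ℓ ^ s) K V hℓ hr rfl hζ hV.2.1 hF hres hgood z hz hP
      apply ih (DD σ z) (DD_ne σ hz)
      · intro P
        obtain ⟨P', hP'⟩ := K.perm P
        unfold DD
        rw [map_div₀, hP']
        exact IsPw.div (hP P') (hP P)
      · exact h
  obtain ⟨y, hy, hyz⟩ := iter_D σ hℓ (s + 1) hz (by rw [← hr]; exact K.sr z)
  exact key (ℓ ^ (s + 1)) z hz hP ⟨1, 1, y, one_ne_zero, hV.1, hy, by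
    rw [map_one, map_one, one_mul, one_mul]; exact hyz⟩

end Pool.Agent.Y317.FT
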